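import Pool.Agent.Helper91.KZ.StS

namespace Pool.Agent.Helper21.KZ

open Pool.Agent.Helper91.KZ Polynomial TensorProduct

universe u

noncomputable section

theorem idd_cd (M L K' : Type u) [Field M] [DivisionRing L] [Algebra M L] [DivisionRing K']
    [Algebra M K'] (e : K' ≃ₐ[M] L) (n : ℕ) (h : CD M L n) : CD M K' n := by
  obtain ⟨hDA, h0, hf, hr⟩ := h
  refine ⟨⟨?_, ?_⟩, h0, ?_, ?_⟩
  · intro x
    exact (isIntegral_algHom_iff e.toAlgHom e.injective).mp (hDA.alg (e x))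
  · intro x hx
    obtain ⟨m, hm⟩ := hDA.cen (e x) (by
      intro y
      have := congrArg e (hx (e.symm y))
      rw [map_mul, map_mul, e.apply_symm_apply] at this
      exact this)
    refine ⟨m, ?_⟩
    apply e.injective
    rw [e.commutes, hm]
  · exact Module.Finite.equiv e.symm.toLinearEquiv
  · rw [← hr]
    exact LinearEquiv.finrank_eq e.toLinearEquiv

theorem IDD (hRDV : ST_RDV.{u}) (hCS1 : ST_CS1.{u}) (hCS2 : ST_CS2.{u}) (hUNI : ST_UNI.{u}) :
    ST_IDD.{u} := by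
  intro E K M K' _ _ _ _ _ _ _ _ _ n s hCD hMI
  have hperf : PerfectField M := Algebra.IsAlgebraic.perfectField (K := E)
  have hs : s ∣ Module.finrank E M := by
    apply hRDV E M K K' s hMI.1
    obtain ⟨e⟩ := hMI.2
    exact ⟨e.toRingEquiv⟩
  refine ⟨hs, ?_⟩
  have h1 : CS M (M ⊗[E] K) := (hCS1 E).2 K M ((hCS2 E).2 K n hCD)
  obtain ⟨r, n', L, iD, iA, hL, hr, hfr⟩ := (hCS2 M).1 (M ⊗[E] K) h1
  obtain ⟨hsr, ⟨e⟩⟩ := hUNI M (M ⊗[E] K) K' L s r hMI hr
  refine ⟨n', ?_, idd_cd M L K' e n' hL⟩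
  rw [Module.finrank_baseChange, hCD.2.2.2] at hfr
  rw [hsr]
  exact Nat.pow_left_injective (by norm_num) hfr

end

end Pool.Agent.Helper21.KZ
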