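import Pool.Agent.Helper91.KZ.StS

namespace Pool.Agent.Helper21.KZ

open Pool.Agent.Helper91.KZ Polynomial TensorProduct

universe u

noncomputable section

/-- the field generated by an element of a division algebra -/
theorem max_gen (K A : Type u) [Field K] [DivisionRing A] [Algebra K A] (x : A)
    (hx : IsIntegral K x) : ∃ h : Irreducible (minpoly K x),
    letI := Fact.mk h
    Nonempty (AdjoinRoot (minpoly K x) →ₐ[K] A) ∧
    FiniteDimensional K (AdjoinRoot (minpoly K x)) ∧
    Module.finrank K (AdjoinRoot (minpoly K x)) = dg K x := by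
  have h := minpoly.irreducible hx
  refine ⟨h, ?_, ?_, ?_⟩
  · refine ⟨Ideal.Quotient.liftₐ (Ideal.span {minpoly K x}) (aeval x) ?_⟩
    intro a ha
    obtain ⟨b, hb⟩ := Ideal.mem_span_singleton.mp ha
    rw [hb, map_mul, minpoly.aeval, zero_mul]
  · exact (AdjoinRoot.powerBasis (minpoly.ne_zero hx)).finite
  · rw [(AdjoinRoot.powerBasis (minpoly.ne_zero hx)).finrank]
    rfl

theorem max_bound (E D M : Type u) [Field E] [PerfectField E] [DivisionRing D] [Algebra E D]
    [Field M] [Algebra E M] [FiniteDimensional E M] (i : M →ₐ[E] D) (p κ : ℕ) (hp : p.Prime)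
    (h : KP p κ E D) : padicValNat p (Module.finrank E M) ≤ κ := by
  obtain ⟨θ, hθ⟩ := Field.exists_primitive_element E M
  have h1 : dg E (i θ) = Module.finrank E M := by
    unfold dg
    rw [minpoly.algHom_eq i i.injective]
    exact (Field.primitive_element_iff_minpoly_natDegree_eq E θ).mp hθ
  have h2 := h (i θ)
  rw [h1] at h2
  have := Fact.mk hp
  by_contra hc
  push Not at hc
  exact h2 ((padicValNat_dvd_iff_le Module.finrank_pos.ne').mpr hc)

theorem MAX (hCEN : ST_CEN.{u}) (hUNI : ST_UNI.{u}) : ST_MAX.{u} := by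
  classical
  intro E D _ _ _ _ p κ hp hDA hKP
  have hpf := Fact.mk hp
  let P : ℕ → Prop := fun v => ∃ (M : Type u) (_ : Field M) (_ : Algebra E M),
    FiniteDimensional E M ∧ Nonempty (M →ₐ[E] D) ∧ padicValNat p (Module.finrank E M) = v
  have hPb : ∀ v, P v → v ≤ κ := by
    rintro v ⟨M, _, _, hfin, ⟨i⟩, rfl⟩
    exact max_bound E D M i p κ hp hKP
  have hP0 : P 0 := by
    refine ⟨E, inferInstance, inferInstance, inferInstance, ⟨Algebra.ofId E D⟩, ?_⟩
    rw [Module.finrank_self]
    exact padicValNat_one_right p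
  obtain ⟨M, iF, iA, hfin, ⟨i⟩, hv⟩ : P (Nat.findGreatest P κ) :=
    Nat.findGreatest_spec (Nat.zero_le κ) hP0
  have hmax : ∀ v, P v → v ≤ padicValNat p (Module.finrank E M) := by
    intro v hP
    rw [hv]
    exact Nat.le_findGreatest (hPb v hP) hP
  refine ⟨M, iF, iA, hfin, ⟨i⟩, hPb _ ⟨M, iF, iA, hfin, ⟨i⟩, rfl⟩, ?_, ?_⟩
  · intro x
    obtain ⟨hirr, h1, h2, h3⟩ := max_gen E D x (hDA.alg x)
    have hF := Fact.mk hirr
    rw [← h3]
    exact hmax _ ⟨AdjoinRoot (minpoly E x), inferInstance, inferInstance, h2, h1, rfl⟩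
  · intro Δ _ _ s hCor x hx
    obtain ⟨C, _, _, j, hj, hji, hjc, hC⟩ := hCEN E D M i hDA
    obtain ⟨-, ⟨e⟩⟩ := hUNI M (M ⊗[E] D) Δ C s (Module.finrank E M) hCor.2 hC.2
    have hdg : dg M (e x) = dg M x := by
      unfold dg
      rw [minpoly.algEquiv_eq]
    rw [← hdg, zero_add, pow_one] at hx
    obtain ⟨hirr, ⟨φ⟩, h2, h3⟩ := max_gen M C (e x) (hC.1.alg (e x))
    have hF := Fact.mk hirr
    let L := AdjoinRoot (minpoly M (e x))
    have hfd : FiniteDimensional E L := FiniteDimensional.trans E M L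
    have hmul : Module.finrank E M * Module.finrank M L = Module.finrank E L :=
      Module.finrank_mul_finrank E M L
    let ψ : L →ₐ[E] D :=
      { toRingHom := j.comp φ.toRingHom
        commutes' := by
          intro r
          show j (φ (algebraMap E L r)) = algebraMap E D r
          rw [IsScalarTower.algebraMap_apply E M L, AlgHom.commutes, hji, AlgHom.commutes] }
    have h5 := hmax _ ⟨L, inferInstance, inferInstance, hfd, ⟨ψ⟩, rfl⟩
    rw [← hmul, padicValNat.mul Module.finrank_pos.ne' Module.finrank_pos.ne', h3] at h5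
    have h6 : 1 ≤ padicValNat p (dg M (e x)) := by
      apply (padicValNat_dvd_iff_le ?_).mp
      · rw [pow_one]
        exact hx
      · rw [← h3]
        exact Module.finrank_pos.ne'
    omega

end

end Pool.Agent.Helper21.KZ
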