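import Pool.Agent.Helper91.KZ.StS

namespace Pool.Agent.Helper21.KZ

open Pool.Agent.Helper91.KZ Polynomial TensorProduct

universe u

noncomputable section

section

variable {E D B : Type u} [Field E] [DivisionRing D] [Algebra E D] [Ring B] [Algebra E B]

/-- coordinates with respect to a basis of the left factor -/
def simPhi : B ⊗[E] D ≃ₗ[E] (Module.Basis.ofVectorSpaceIndex E B) →₀ D :=
  haveI := Classical.decEq (Module.Basis.ofVectorSpaceIndex E B)
  TensorProduct.equivFinsuppOfBasisLeft (Module.Basis.ofVectorSpace E B)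

theorem simPhi_tmul (b : B) (d : D) (i : Module.Basis.ofVectorSpaceIndex E B) :
    simPhi (b ⊗ₜ[E] d) i = (Module.Basis.ofVectorSpace E B).repr b i • d := by
  unfold simPhi
  let _ := Classical.decEq (Module.Basis.ofVectorSpaceIndex E B)
  exact TensorProduct.equivFinsuppOfBasisLeft_apply_tmul_apply _ _ _ _

theorem simPhi_right (x : B ⊗[E] D) (c : D) (i : Module.Basis.ofVectorSpaceIndex E B) :
    simPhi (x * ((1 : B) ⊗ₜ[E] c)) i = simPhi x i * c := by
  induction x using TensorProduct.induction_on with
  | zero => simp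
  | tmul b d =>
    rw [Algebra.TensorProduct.tmul_mul_tmul, mul_one, simPhi_tmul, simPhi_tmul, smul_mul_assoc]
  | add x y hx hy =>
    rw [add_mul, map_add, map_add, Finsupp.add_apply, Finsupp.add_apply, add_mul, hx, hy]

theorem simPhi_left (x : B ⊗[E] D) (c : D) (i : Module.Basis.ofVectorSpaceIndex E B) :
    simPhi (((1 : B) ⊗ₜ[E] c) * x) i = c * simPhi x i := by
  induction x using TensorProduct.induction_on with
  | zero => simp
  | tmul b d =>
    rw [Algebra.TensorProduct.tmul_mul_tmul, one_mul, simPhi_tmul, simPhi_tmul, mul_smul_comm]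
  | add x y hx hy =>
    rw [mul_add, map_add, map_add, Finsupp.add_apply, Finsupp.add_apply, mul_add, hx, hy]

/-- elements with central coordinates come from `B` -/
theorem sim_central (x : B ⊗[E] D) (h : ∀ i, ∃ e : E, algebraMap E D e = simPhi x i) :
    ∃ b : B, b ⊗ₜ[E] (1 : D) = x := by
  classical
  choose e he using h
  have hs : ∀ i, e i ≠ 0 → i ∈ (simPhi x).support := by
    intro i hi
    rw [Finsupp.mem_support_iff, ← he i]
    exact (_root_.map_ne_zero _).mpr hi
  let f : (Module.Basis.ofVectorSpaceIndex E B) →₀ E := Finsupp.onFinset (simPhi x).support e hs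
  refine ⟨(Module.Basis.ofVectorSpace E B).repr.symm f, ?_⟩
  apply simPhi.injective
  ext i
  rw [simPhi_tmul, LinearEquiv.apply_symm_apply, ← he i, Algebra.algebraMap_eq_smul_one]
  rfl

theorem sim_key (hD : ∀ x : D, (∀ y : D, x * y = y * x) → ∃ e : E, algebraMap E D e = x)
    (I : TwoSidedIdeal (B ⊗[E] D)) : ∀ (n : ℕ) (x : B ⊗[E] D), x ∈ I → x ≠ 0 →
    (simPhi x).support.card ≤ n → ∃ b : B, b ≠ 0 ∧ b ⊗ₜ[E] (1 : D) ∈ I := by
  classical
  intro n
  induction n with
  | zero =>
    intro x _ hx hn
    exfalso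
    apply hx
    apply simPhi.injective
    rw [map_zero]
    exact Finsupp.support_eq_empty.mp (Finset.card_eq_zero.mp (Nat.le_zero.mp hn))
  | succ n ih =>
    intro x hxI hx hn
    have hne : simPhi x ≠ 0 := fun h => hx (simPhi.injective (by rw [h, map_zero]))
    obtain ⟨j, hj⟩ := Finsupp.support_nonempty_iff.mpr hne
    have hj0 : simPhi x j ≠ 0 := Finsupp.mem_support_iff.mp hj
    let x' : B ⊗[E] D := x * ((1 : B) ⊗ₜ[E] (simPhi x j)⁻¹)
    have hx'I : x' ∈ I := I.mul_mem_right _ _ hxI
    have hx'j : simPhi x' j = 1 := by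
      rw [simPhi_right]
      exact mul_inv_cancel₀ hj0
    have hx's : (simPhi x').support ⊆ (simPhi x).support := by
      intro i hi
      rw [Finsupp.mem_support_iff] at hi ⊢
      intro h0
      apply hi
      rw [simPhi_right, h0, zero_mul]
    have hx'0 : x' ≠ 0 := by
      intro h0
      rw [h0, map_zero] at hx'j
      exact zero_ne_one hx'j
    by_cases hc : ∀ i, ∃ e : E, algebraMap E D e = simPhi x' i
    · obtain ⟨b, hb⟩ := sim_central x' hc
      refine ⟨b, ?_, ?_⟩
      · rintro rfl
        rw [zero_tmul] at hb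
        exact hx'0 hb.symm
      · rw [hb]
        exact hx'I
    · push Not at hc
      obtain ⟨i, hi⟩ := hc
      have hi' : ¬ ∀ y : D, simPhi x' i * y = y * simPhi x' i := by
        intro h
        obtain ⟨e, he⟩ := hD _ h
        exact hi e he
      push Not at hi'
      obtain ⟨c, hc⟩ := hi'
      let y : B ⊗[E] D := ((1 : B) ⊗ₜ[E] c) * x' - x' * ((1 : B) ⊗ₜ[E] c)
      have hyI : y ∈ I := I.sub_mem (I.mul_mem_left _ _ hx'I) (I.mul_mem_right _ _ hx'I)
      have hyk : ∀ k, simPhi y k = c * simPhi x' k - simPhi x' k * c := by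
        intro k
        show simPhi (((1 : B) ⊗ₜ[E] c) * x' - x' * ((1 : B) ⊗ₜ[E] c)) k = _
        rw [map_sub, Finsupp.sub_apply, simPhi_left x' c k, simPhi_right x' c k]
      have hy0 : y ≠ 0 := by
        intro h0
        have := hyk i
        rw [h0, map_zero] at this
        exact hc (sub_eq_zero.mp this.symm).symm
      apply ih y hyI hy0
      have hsub : (simPhi y).support ⊆ (simPhi x).support.erase j := by
        intro k hk
        rw [Finsupp.mem_support_iff, hyk] at hk
        rw [Finset.mem_erase]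
        constructor
        · rintro rfl
          apply hk
          rw [hx'j, mul_one, one_mul, sub_self]
        · apply hx's
          rw [Finsupp.mem_support_iff]
          intro h0
          apply hk
          rw [h0, mul_zero, zero_mul, sub_self]
      have h1 := Finset.card_le_card hsub
      rw [Finset.card_erase_of_mem hj] at h1
      omega

end

theorem SIM : ST_SIM.{u} := by
  intro E D B _ _ _ _ _ hD hB
  have hinj : Function.Injective (fun b : B => b ⊗ₜ[E] (1 : D)) :=
    Algebra.TensorProduct.includeLeft_injective (S := E) (FaithfulSMul.algebraMap_injective E D)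
  have : Nontrivial (B ⊗[E] D) := hinj.nontrivial
  constructor
  · apply IsSimpleRing.of_eq_bot_or_eq_top
    intro I
    by_cases hI : I = ⊥
    · exact Or.inl hI
    right
    rw [← I.one_mem_iff]
    obtain ⟨x, hx1, hx2⟩ := SetLike.exists_of_lt (bot_lt_iff_ne_bot.mpr hI)
    rw [TwoSidedIdeal.mem_bot] at hx2
    obtain ⟨b, hb, hbI⟩ := sim_key hD I _ x hx1 hx2 le_rfl
    let f : B →+* B ⊗[E] D := (Algebra.TensorProduct.includeLeft : B →ₐ[E] B ⊗[E] D).toRingHom
    have h1 : (1 : B) ∈ TwoSidedIdeal.comap f I := by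
      apply IsSimpleRing.one_mem_of_ne_zero_mem _ hb
      rw [TwoSidedIdeal.mem_comap]
      exact hbI
    rw [TwoSidedIdeal.mem_comap, map_one] at h1
    exact h1
  · intro x hx
    obtain ⟨b, hb⟩ := sim_central x (by
      intro i
      apply hD
      intro y
      rw [← simPhi_left, ← simPhi_right, hx])
    refine ⟨b, ?_, hb⟩
    intro c
    apply hinj
    have := hx (c ⊗ₜ[E] (1 : D))
    rw [← hb, Algebra.TensorProduct.tmul_mul_tmul, Algebra.TensorProduct.tmul_mul_tmul, mul_one]
      at this
    exact this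

end

end Pool.Agent.Helper21.KZ
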